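import Mathlib
import Pool.Agent.H.MP_725651_al.B

set_option autoImplicit false

namespace Pool.Agent.Results.MP_725651_al.Yes

theorem result (c : ℝ) (hc : 0 < c) : ∃ μ : ℕ, ∀ (F : Type) [Field F] [Fintype F] (n : ℕ),
    1 ≤ n → ∀ X : Fin μ → Finset (Matrix (Fin n) (Fin n) F),
      (∀ i, (Fintype.card F : ℝ) ^ (c * (n : ℝ) ^ 2) ≤ (X i).card) →
      ∃ a b : Fin μ → Matrix (Fin n) (Fin n) F, (∀ i, IsUnit (a i) ∧ IsUnit (b i)) ∧
        ∀ z : Matrix (Fin n) (Fin n) F, ∃ x : Fin μ → Matrix (Fin n) (Fin n) F,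
          (∀ i, x i ∈ X i) ∧ ∑ i, a i * x i * b i = z := by
  obtain ⟨μ, h⟩ := Pool.Agent.H.MP_725651_al.main hc
  refine ⟨μ, fun F _ _ n hn X hX => ?_⟩
  obtain ⟨g, hg⟩ := h F n hn X hX
  classical
  refine ⟨fun i => (g i).1.val, fun i => (g i).2.val, fun i => ⟨?_, ?_⟩, hg⟩
  · convert (g i).1.isUnit
  · convert (g i).2.isUnit

end Pool.Agent.Results.MP_725651_al.Yes
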